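import Mathlib
import Pool.Agent.N963.GN.Stm3

/-!
# Uniform growth of convergent sequences of real-rooted polynomials
-/

set_option autoImplicit false

namespace Pool.Agent.N134.GN

open Complex Filter Topology Polynomial Metric Set

/-- The primary factor. -/
lemma prim (w : ℂ) : ‖1 - w‖ ≤ Real.exp (‖w‖ ^ 2 / 2) * ‖cexp (-w)‖ := by
  have h1 : ‖1 - w‖ ^ 2 ≤ (Real.exp (‖w‖ ^ 2 / 2) * ‖cexp (-w)‖) ^ 2 := by
    have e1 : ‖1 - w‖ ^ 2 = 1 - 2 * w.re + ‖w‖ ^ 2 := by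
      rw [← Complex.normSq_eq_norm_sq, ← Complex.normSq_eq_norm_sq, Complex.normSq_apply,
        Complex.normSq_apply]
      simp only [sub_re, one_re, sub_im, one_im]
      ring
    have e2 : (Real.exp (‖w‖ ^ 2 / 2) * ‖cexp (-w)‖) ^ 2 = Real.exp (-2 * w.re + ‖w‖ ^ 2) := by
      rw [Complex.norm_exp, neg_re, ← Real.exp_add, ← Real.exp_nat_mul]
      congr 1
      push_cast
      ring
    rw [e1, e2]
    have := Real.add_one_le_exp (-2 * w.re + ‖w‖ ^ 2)
    linarith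
  exact le_of_sq_le_sq h1 (by positivity)

/-- Products of linear factors. -/
lemma prod_bound (c : Multiset ℂ) : (∀ x ∈ c, x.im = 0) →
    ((c.map fun x => 1 - C x * X).prod : ℂ[X]).coeff 0 = 1 ∧
    ((c.map fun x => 1 - C x * X).prod : ℂ[X]).coeff 1 = -c.sum ∧
    2 * ((c.map fun x => 1 - C x * X).prod : ℂ[X]).coeff 2 =
      c.sum ^ 2 - (((c.map fun x => ‖x‖ ^ 2).sum : ℝ) : ℂ) ∧
    0 ≤ (c.map fun x => ‖x‖ ^ 2).sum ∧
    ∀ s : ℂ, ‖((c.map fun x => 1 - C x * X).prod : ℂ[X]).eval s‖ ≤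
      Real.exp ((c.map fun x => ‖x‖ ^ 2).sum * ‖s‖ ^ 2 / 2) * ‖cexp (-(c.sum * s))‖ := by
  induction c using Multiset.induction_on with
  | empty =>
    intro _
    simp [coeff_one]
  | cons a c ih =>
    intro h
    obtain ⟨h0, h1, h2, h3, h4⟩ := ih fun x hx => h x (Multiset.mem_cons_of_mem hx)
    have ha : a.im = 0 := h a (Multiset.mem_cons_self a c)
    have ha2 : ((‖a‖ ^ 2 : ℝ) : ℂ) = a ^ 2 := by
      rw [← Complex.normSq_eq_norm_sq, Complex.normSq_apply, ha]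
      have : a = ((a.re : ℝ) : ℂ) := by
        apply Complex.ext
        · simp
        · simp [ha]
      rw [this]
      simp only [ofReal_re]
      push_cast
      ring
    set P : ℂ[X] := (c.map fun x => 1 - C x * X).prod with hP
    rw [Multiset.map_cons, Multiset.prod_cons, Multiset.sum_cons, Multiset.map_cons,
      Multiset.sum_cons, ← hP]
    have e : (1 - C a * X) * P = P - C a * (X * P) := by ring
    refine ⟨?_, ?_, ?_, ?_, ?_⟩
    · rw [e, coeff_sub, coeff_C_mul, coeff_X_mul_zero, h0]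
      ring
    · rw [e, coeff_sub, coeff_C_mul, coeff_X_mul, h0, h1]
      ring
    · rw [e, coeff_sub, coeff_C_mul, coeff_X_mul, h1]
      push_cast
      push_cast at ha2 h2
      rw [ha2]
      linear_combination h2
    · positivity
    · intro s
      rw [eval_mul, norm_mul]
      have h5 : ‖((1 - C a * X : ℂ[X])).eval s‖ ≤
          Real.exp (‖a * s‖ ^ 2 / 2) * ‖cexp (-(a * s))‖ := by
        have : (1 - C a * X : ℂ[X]).eval s = 1 - a * s := by simp
        rw [this]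
        exact prim _
      refine (mul_le_mul h5 (h4 s) (norm_nonneg _) (by positivity)).trans (le_of_eq ?_)
      have e3 : cexp (-((a + c.sum) * s)) = cexp (-(a * s)) * cexp (-(c.sum * s)) := by
        rw [← Complex.exp_add]
        congr 1
        ring
      have e4 : Real.exp ((‖a‖ ^ 2 + (c.map fun x => ‖x‖ ^ 2).sum) * ‖s‖ ^ 2 / 2) =
          Real.exp (‖a * s‖ ^ 2 / 2) * Real.exp ((c.map fun x => ‖x‖ ^ 2).sum * ‖s‖ ^ 2 / 2) := by
        rw [← Real.exp_add, norm_mul]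
        congr 1
        ring
      rw [e3, e4, norm_mul (cexp _) (cexp _)]
      ring

/-- The growth of a polynomial with real zeros in terms of its first coefficients. -/
lemma poly_bound (T : ℂ[X]) (h0 : T.coeff 0 ≠ 0) (hr : ∀ w : ℂ, T.eval w = 0 → w.im = 0) (s : ℂ) :
    ‖T.eval s‖ ≤ ‖T.coeff 0‖ * Real.exp (‖T.coeff 1 / T.coeff 0‖ * ‖s‖ +
      (‖T.coeff 1 / T.coeff 0‖ ^ 2 + 2 * ‖T.coeff 2 / T.coeff 0‖) * ‖s‖ ^ 2 / 2) := by
  have hT : T ≠ 0 := by
    rintro rfl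
    simp at h0
  set c : Multiset ℂ := T.roots.map (fun x => x⁻¹) with hc
  have hroot : ∀ x ∈ T.roots, x ≠ 0 ∧ x.im = 0 := by
    intro x hx
    have h1 : T.eval x = 0 := (mem_roots hT).1 hx
    refine ⟨?_, hr x h1⟩
    rintro rfl
    rw [← coeff_zero_eq_eval_zero] at h1
    exact h0 h1
  have hcim : ∀ x ∈ c, x.im = 0 := by
    intro x hx
    rw [hc, Multiset.mem_map] at hx
    obtain ⟨y, hy, rfl⟩ := hx
    rw [inv_im, (hroot y hy).2]
    simp
  obtain ⟨k0, k1, k2, k3, k4⟩ := prod_bound c hcim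
  set P : ℂ[X] := (c.map fun x => 1 - C x * X).prod with hP
  -- factorisation
  have hfac : T = C (T.coeff 0) * P := by
    have h1 : T = C T.leadingCoeff * (T.roots.map fun x => X - C x).prod :=
      (IsAlgClosed.splits T).eq_prod_roots
    have h2 : ∀ R : Multiset ℂ, (∀ x ∈ R, x ≠ 0) → (R.map fun x => X - C x).prod =
        C ((R.map fun x => -x).prod) * ((R.map (fun x => x⁻¹)).map fun x => 1 - C x * X).prod := by
      intro R
      induction R using Multiset.induction_on with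
      | empty => intro _; simp
      | cons a R ih =>
        intro h
        have ha : a ≠ 0 := h a (Multiset.mem_cons_self a R)
        simp only [Multiset.map_cons, Multiset.prod_cons]
        rw [ih fun x hx => h x (Multiset.mem_cons_of_mem hx)]
        have h3 : (X - C a : ℂ[X]) = C (-a) * (1 - C a⁻¹ * X) := by
          rw [mul_sub, mul_one, ← mul_assoc, ← C_mul, neg_mul, mul_inv_cancel₀ ha, C_neg, C_neg, C_1]
          ring
        rw [h3, C_mul]
        ring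
    rw [h2 _ fun x hx => (hroot x hx).1, ← mul_assoc, ← C_mul, ← hc, ← hP] at h1
    have h4 : T.coeff 0 = T.leadingCoeff * (T.roots.map fun x => -x).prod := by
      conv_lhs => rw [h1]
      rw [coeff_C_mul, k0, mul_one]
    rw [h4]
    exact h1
  have e1 : T.coeff 1 / T.coeff 0 = -c.sum := by
    have : T.coeff 1 = T.coeff 0 * P.coeff 1 := by
      conv_lhs => rw [hfac]
      rw [coeff_C_mul]
    rw [this, mul_div_cancel_left₀ _ h0, k1]
  have e2 : T.coeff 2 / T.coeff 0 = P.coeff 2 := by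
    have : T.coeff 2 = T.coeff 0 * P.coeff 2 := by
      conv_lhs => rw [hfac]
      rw [coeff_C_mul]
    rw [this, mul_div_cancel_left₀ _ h0]
  have e3 : (c.map fun x => ‖x‖ ^ 2).sum ≤ ‖c.sum‖ ^ 2 + 2 * ‖P.coeff 2‖ := by
    have h1 : (((c.map fun x => ‖x‖ ^ 2).sum : ℝ) : ℂ) = c.sum ^ 2 - 2 * P.coeff 2 := by
      linear_combination k2
    have h2 : (c.map fun x => ‖x‖ ^ 2).sum = ‖(((c.map fun x => ‖x‖ ^ 2).sum : ℝ) : ℂ)‖ := by
      rw [Complex.norm_real, Real.norm_of_nonneg k3]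
    rw [h2, h1]
    refine (norm_sub_le _ _).trans ?_
    rw [norm_pow, norm_mul]
    simp
  have h5 : ‖T.eval s‖ = ‖T.coeff 0‖ * ‖P.eval s‖ := by
    conv_lhs => rw [hfac]
    rw [eval_mul, eval_C, norm_mul]
  rw [h5]
  refine mul_le_mul_of_nonneg_left ((k4 s).trans ?_) (norm_nonneg _)
  rw [Complex.norm_exp, ← Real.exp_add]
  refine Real.exp_le_exp.2 ?_
  rw [e1, e2, norm_neg]
  have h6 : (-(c.sum * s)).re ≤ ‖c.sum‖ * ‖s‖ := by
    refine (Complex.re_le_norm _).trans ?_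
    rw [norm_neg, norm_mul]
  have h7 : (c.map fun x => ‖x‖ ^ 2).sum * ‖s‖ ^ 2 ≤
      (‖c.sum‖ ^ 2 + 2 * ‖P.coeff 2‖) * ‖s‖ ^ 2 := by gcongr
  linarith

/-- Cauchy bounds for the first two coefficients. -/
lemma coeff_bound (T : ℂ[X]) {B : ℝ} (hB : ∀ z : ℂ, ‖z‖ ≤ 2 → ‖T.eval z‖ ≤ B) :
    ‖T.coeff 1‖ ≤ B ∧ ‖T.coeff 2‖ ≤ B := by
  have hd : ∀ z : ℂ, ‖z‖ ≤ 1 → ‖(derivative T).eval z‖ ≤ B := by
    intro z hz
    have h1 := Complex.norm_deriv_le_of_forall_mem_sphere_norm_le (c := z) (R := 1) (C := B)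
      (f := fun z => T.eval z) one_pos T.differentiable.diffContOnCl (by
        intro w hw
        refine hB w ?_
        have h2 : ‖w - z‖ = 1 := by simpa [dist_eq_norm] using hw
        calc ‖w‖ = ‖(w - z) + z‖ := by rw [sub_add_cancel]
          _ ≤ ‖w - z‖ + ‖z‖ := norm_add_le _ _
          _ ≤ 2 := by rw [h2]; linarith)
    rw [div_one, Polynomial.deriv] at h1
    exact h1
  have h1 : T.coeff 1 = (derivative T).eval 0 := by
    rw [← coeff_zero_eq_eval_zero, coeff_derivative]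
    simp
  have h2 : T.coeff 2 * 2 = (derivative (derivative T)).eval 0 := by
    rw [← coeff_zero_eq_eval_zero, coeff_derivative, coeff_derivative]
    norm_num
  have hB0 : 0 ≤ B := (norm_nonneg _).trans (hB 0 (by simp))
  refine ⟨by rw [h1]; exact hd 0 (by simp), ?_⟩
  have h3 := Complex.norm_deriv_le_of_forall_mem_sphere_norm_le (c := 0) (R := 1) (C := B)
      (f := fun z => (derivative T).eval z) one_pos (derivative T).differentiable.diffContOnCl (by
        intro w hw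
        refine hd w ?_
        have h2 : ‖w - 0‖ = 1 := by simpa [dist_eq_norm] using hw
        rw [sub_zero] at h2
        exact h2.le)
  rw [div_one, Polynomial.deriv, ← h2, norm_mul] at h3
  have h4 : ‖(2 : ℂ)‖ = 2 := by simp
  rw [h4] at h3
  have := norm_nonneg (T.coeff 2)
  linarith

theorem c2 : Pool.Agent.N963.GN.S_C2 := by
  intro φ Q hφ hroots hlim
  -- uniform convergence on discs
  have huni : ∀ R : ℝ, TendstoUniformlyOn (fun (N : ℕ) (w : ℂ) => aeval w (Q N)) φ atTop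
      (closedBall 0 R) := fun R =>
    (tendstoLocallyUniformlyOn_iff_tendstoUniformlyOn_of_compact (isCompact_closedBall 0 R)).1
      hlim.tendstoLocallyUniformlyOn
  have hdiff : Differentiable ℂ φ := by
    have h1 : DifferentiableOn ℂ φ univ :=
      (hlim.tendstoLocallyUniformlyOn (s := univ)).differentiableOn
        (Eventually.of_forall fun N => (Q N).differentiable_aeval.differentiableOn) isOpen_univ
    exact differentiableOn_univ.1 h1
  -- a real point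
  obtain ⟨s0, hs0⟩ : ∃ s0 : ℝ, φ s0 ≠ 0 := by
    by_contra hcon
    push Not at hcon
    obtain ⟨z, hz⟩ := hφ
    apply hz
    have h1 : AnalyticOnNhd ℂ φ univ := fun z _ => hdiff.analyticAt z
    have h2 : ∃ᶠ z in 𝓝[≠] (0 : ℂ), φ z = 0 := by
      have h3 : Tendsto (fun n : ℕ => ((1 / ((n : ℝ) + 1) : ℝ) : ℂ)) atTop (𝓝[≠] 0) := by
        refine tendsto_nhdsWithin_iff.2 ⟨?_, ?_⟩
        · have h4 := tendsto_one_div_add_atTop_nhds_zero_nat (𝕜 := ℝ)
          have h5 : Tendsto (fun n : ℕ => ((1 / ((n : ℝ) + 1) : ℝ) : ℂ)) atTop (𝓝 ((0 : ℝ) : ℂ)) :=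
            (Complex.continuous_ofReal.tendsto 0).comp h4
          rw [Complex.ofReal_zero] at h5
          exact h5
        · refine Eventually.of_forall fun n => ?_
          have h4 : (0 : ℝ) < 1 / ((n : ℝ) + 1) := by positivity
          intro h5
          have h6 : ((1 / ((n : ℝ) + 1) : ℝ) : ℂ) = 0 := h5
          exact h4.ne' (by exact_mod_cast h6)
      exact h3.frequently (Eventually.frequently (Eventually.of_forall fun n => hcon _))
    have h3 := h1.eqOn_zero_of_preconnected_of_frequently_eq_zero isPreconnected_univ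
      (mem_univ 0) h2
    exact h3 (mem_univ z)
  -- bounds
  set R : ℝ := |s0| + 2 with hR
  obtain ⟨B0, hB0⟩ : ∃ B0 : ℝ, ∀ z ∈ closedBall (0 : ℂ) R, ‖φ z‖ ≤ B0 := by
    obtain ⟨B0, h⟩ := (isCompact_closedBall (0 : ℂ) R).exists_bound_of_continuousOn
      hdiff.continuous.continuousOn
    exact ⟨B0, h⟩
  have hd0 : 0 < ‖φ s0‖ := norm_pos_iff.2 hs0
  set δ : ℝ := min (‖φ s0‖ / 2) 1 with hδ
  have hδ0 : 0 < δ := by positivity
  have hev := Metric.tendstoUniformlyOn_iff.1 (huni R) δ hδ0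
  obtain ⟨N0, hN0⟩ := Filter.eventually_atTop.1 hev
  have hs0R : (s0 : ℂ) ∈ closedBall (0 : ℂ) R := by
    rw [mem_closedBall_zero_iff, Complex.norm_real, Real.norm_eq_abs]
    linarith
  set B : ℝ := B0 + 1 with hB
  have hB00 : 0 ≤ B0 := (norm_nonneg _).trans (hB0 _ hs0R)
  set D : ℝ := ‖φ s0‖ / 2 with hD
  have hD0 : 0 < D := by positivity
  set M1 : ℝ := B / D with hM1
  have hM10 : 0 ≤ M1 := by positivity
  set K : ℝ := M1 + (M1 ^ 2 + 2 * M1) / 2 with hK
  have hK0 : 0 ≤ K := by positivity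
  refine ⟨max (B * Real.exp (K * (1 + 2 * s0 ^ 2) + M1)) (2 * K), le_max_of_le_right (by positivity),
    N0, fun N hN s => ?_⟩
  have hclose := hN0 N hN
  have hQB : ∀ z ∈ closedBall (0 : ℂ) R, ‖aeval z (Q N)‖ ≤ B := by
    intro z hz
    have h1 := hclose z hz
    rw [dist_eq_norm] at h1
    have h2 := norm_sub_norm_le (aeval z (Q N)) (φ z)
    have h3 := hB0 z hz
    rw [norm_sub_rev] at h1
    have h4 : δ ≤ 1 := min_le_right _ _
    linarith
  have hQD : D ≤ ‖aeval (s0 : ℂ) (Q N)‖ := by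
    have h1 := hclose _ hs0R
    rw [dist_eq_norm] at h1
    have h2 := norm_sub_norm_le (φ s0) (aeval (s0 : ℂ) (Q N))
    have h4 : δ ≤ D := min_le_left _ _
    linarith
  -- the shifted polynomial
  set T : ℂ[X] := taylor (s0 : ℂ) ((Q N).map (algebraMap ℝ ℂ)) with hT
  have hTe : ∀ w : ℂ, T.eval w = aeval (w + s0) (Q N) := by
    intro w
    rw [hT, taylor_eval, eval_map_algebraMap]
  have hT0 : T.coeff 0 = aeval (s0 : ℂ) (Q N) := by
    rw [coeff_zero_eq_eval_zero, hTe, zero_add]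
  have hT0n : D ≤ ‖T.coeff 0‖ := by rw [hT0]; exact hQD
  have hT0ne : T.coeff 0 ≠ 0 := norm_pos_iff.1 (hD0.trans_le hT0n)
  have hTr : ∀ w : ℂ, T.eval w = 0 → w.im = 0 := by
    intro w hw
    rw [hTe] at hw
    have := hroots N _ hw
    simpa using this
  have hTB : ∀ z : ℂ, ‖z‖ ≤ 2 → ‖T.eval z‖ ≤ B := by
    intro z hz
    rw [hTe]
    refine hQB _ ?_
    rw [mem_closedBall_zero_iff]
    refine (norm_add_le _ _).trans ?_
    rw [Complex.norm_real, Real.norm_eq_abs]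
    linarith
  obtain ⟨hc1, hc2⟩ := coeff_bound T hTB
  have hc0 : ‖T.coeff 0‖ ≤ B := by
    rw [coeff_zero_eq_eval_zero]
    exact hTB 0 (by simp)
  have hq1 : ‖T.coeff 1 / T.coeff 0‖ ≤ M1 := by
    rw [norm_div]
    exact div_le_div₀ (by positivity) hc1 hD0 hT0n
  have hq2 : ‖T.coeff 2 / T.coeff 0‖ ≤ M1 := by
    rw [norm_div]
    exact div_le_div₀ (by positivity) hc2 hD0 hT0n
  have h1 := poly_bound T hT0ne hTr (s - s0)
  rw [hTe, sub_add_cancel] at h1
  have hn0 : 0 ≤ ‖s - s0‖ := norm_nonneg _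
  have h2 : ‖T.coeff 1 / T.coeff 0‖ * ‖s - s0‖ +
      (‖T.coeff 1 / T.coeff 0‖ ^ 2 + 2 * ‖T.coeff 2 / T.coeff 0‖) * ‖s - s0‖ ^ 2 / 2 ≤
      M1 * ‖s - s0‖ + (M1 ^ 2 + 2 * M1) * ‖s - s0‖ ^ 2 / 2 := by
    gcongr
  have h3 : ‖s - s0‖ ≤ 1 + ‖s - s0‖ ^ 2 := by nlinarith [sq_nonneg (‖s - s0‖ - 1)]
  have h4 : ‖s - s0‖ ^ 2 ≤ 2 * ‖s‖ ^ 2 + 2 * s0 ^ 2 := by
    have h5 : ‖s - s0‖ ≤ ‖s‖ + |s0| := by
      refine (norm_sub_le _ _).trans ?_
      rw [Complex.norm_real, Real.norm_eq_abs]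
    have h6 : ‖s - s0‖ ^ 2 ≤ (‖s‖ + |s0|) ^ 2 := by gcongr
    have h7 : |s0| ^ 2 = s0 ^ 2 := sq_abs s0
    nlinarith [sq_nonneg (‖s‖ - |s0|)]
  have h5 : M1 * ‖s - s0‖ + (M1 ^ 2 + 2 * M1) * ‖s - s0‖ ^ 2 / 2 ≤
      (K * (1 + 2 * s0 ^ 2) + M1) + (2 * K) * ‖s‖ ^ 2 := by
    have h6 : M1 * ‖s - s0‖ ≤ M1 * (1 + ‖s - s0‖ ^ 2) := mul_le_mul_of_nonneg_left h3 hM10
    have h7 : M1 * ‖s - s0‖ + (M1 ^ 2 + 2 * M1) * ‖s - s0‖ ^ 2 / 2 ≤ M1 + K * ‖s - s0‖ ^ 2 := by
      rw [hK]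
      linarith
    have h8 : K * ‖s - s0‖ ^ 2 ≤ K * (2 * ‖s‖ ^ 2 + 2 * s0 ^ 2) := mul_le_mul_of_nonneg_left h4 hK0
    linarith
  calc ‖aeval s (Q N)‖ ≤ ‖T.coeff 0‖ * Real.exp (‖T.coeff 1 / T.coeff 0‖ * ‖s - s0‖ +
      (‖T.coeff 1 / T.coeff 0‖ ^ 2 + 2 * ‖T.coeff 2 / T.coeff 0‖) * ‖s - s0‖ ^ 2 / 2) := h1
    _ ≤ B * Real.exp ((K * (1 + 2 * s0 ^ 2) + M1) + (2 * K) * ‖s‖ ^ 2) := by
        refine mul_le_mul hc0 (Real.exp_le_exp.2 (h2.trans h5)) (Real.exp_nonneg _) (by positivity)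
    _ = B * Real.exp (K * (1 + 2 * s0 ^ 2) + M1) * Real.exp ((2 * K) * ‖s‖ ^ 2) := by
        rw [Real.exp_add]
        ring
    _ ≤ _ := by
        refine mul_le_mul (le_max_left _ _) (Real.exp_le_exp.2 ?_) (Real.exp_nonneg _)
          (le_max_of_le_right (by positivity))
        exact mul_le_mul_of_nonneg_right (le_max_right _ _) (by positivity)

end Pool.Agent.N134.GN
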